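import Pool.Agent.H715R3.S5

set_option autoImplicit false

namespace Pool.Agent.Results.MP_bced1d_lc.SoficExt

open Pool.Agent.H715R3.Sof

/-- There are a finitely generated recursively presented group `G` and a nonempty sofic
`G`-subshift `Y` with a computable point such that no extension of `Y` of finite type has a
computable point; in particular `m(X) ≤ m(Y)` fails for every extension `X` of finite type, so
`m(X) ≠ m(Y)`. -/
theorem result : ∃ (G : Type) (_ : Group G) (r : ℕ) (gens : Fin r → G),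
    RecursivelyPresented gens ∧
    ∃ (l : ℕ) (Y : Set (G → Fin l)), Y.Nonempty ∧ IsSofic Y ∧
      (∃ y ∈ pull gens Y, Computable y) ∧
      ∀ (k : ℕ) (X : Set (G → Fin k)) (φ : X → (G → Fin l)), IsSFT X → IsFactorMap X Y φ →
        (∀ x ∈ pull gens X, ¬ Computable x) ∧
        ¬ (MedvedevLe (pull gens X) (pull gens Y) ∧ MedvedevLe (pull gens Y) (pull gens X)) := by
  refine ⟨G2, inferInstance, 37, gens2, rp2, 2, YY, ⟨yy, yy_mem⟩, YY_sofic, yy_computable, ?_⟩
  intro k X φ hX hφ
  have h1 : ∀ x ∈ pull gens2 X, ¬ Computable x := fun x hx => no_computable_point hX hφ hx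
  refine ⟨h1, ?_⟩
  rintro ⟨⟨f, hf, hfm, hfr⟩, -⟩
  obtain ⟨y, hy, hyc⟩ := yy_computable
  obtain ⟨x, hx, hxr⟩ := hfr y hy
  exact h1 x hx (computable_of_reduction hf hfm hyc hxr)

end Pool.Agent.Results.MP_bced1d_lc.SoficExt
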